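import Mathlib
import Pool.Agent.H32.Chordal

set_option autoImplicit false

namespace Pool.Agent.Results.MP_24e13c_co.Chordal

open SimpleGraph Finset

variable {V : Type} [Fintype V] [DecidableEq V] (G : SimpleGraph V) [DecidableRel G.Adj]

/-- No induced cycle of length at least 4. -/
def IsChordal : Prop := ∀ n, 4 ≤ n → IsEmpty (cycleGraph n ↪g G)

/-- `f(N[v])`. -/
def nbSum (f : V → ℝ) (v : V) : ℝ := ∑ u ∈ insert v (G.neighborFinset v), f u

/-- Real domination number, in the extended reals. -/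
noncomputable def gammaR : EReal :=
  ⨅ (f : V → ℝ) (_ : ∀ v, 1 ≤ nbSum G f v), ((∑ v, f v : ℝ) : EReal)

/-- Domination number. -/
noncomputable def gamma : ℕ :=
  sInf {k | ∃ D : Finset V, (∀ v, v ∈ D ∨ ∃ d ∈ D, G.Adj v d) ∧ D.card = k}

/-- `G` has a nonnegative efficient real dominating function. -/
def HasNERD : Prop := ∃ f : V → ℝ, (∀ v, 0 ≤ f v) ∧ ∀ v, nbSum G f v = 1

theorem result (V : Type) [Fintype V] [DecidableEq V] (G : SimpleGraph V) [DecidableRel G.Adj]
    (hG : IsChordal G) (h : HasNERD G) : gammaR G = ((gamma G : ℝ) : EReal) := by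
  open Pool.Agent.H32.Chordal in
  obtain ⟨f, h0, h1⟩ := h
  obtain ⟨D, hD, h2⟩ := dom G hG f h0 h1
  apply le_antisymm
  · obtain ⟨T, hT, e⟩ := Nat.sInf_mem (s := {k | ∃ D : Finset V,
      (∀ v, v ∈ D ∨ ∃ d ∈ D, G.Adj v d) ∧ D.card = k}) ⟨_, D, hD, rfl⟩
    refine iInf₂_le_of_le (fun v => if v ∈ T then 1 else 0) (fun v => ?_) ?_
    · obtain ⟨d, h3, h4⟩ : ∃ d ∈ insert v (G.neighborFinset v), d ∈ T := by
        simpa using (hT v).imp id fun ⟨d, h3, h4⟩ => ⟨d, h4, h3⟩
      have := single_le_sum (f := fun v => if v ∈ T then (1 : ℝ) else 0)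
        (fun i _ => by split_ifs <;> norm_num) h3
      simpa [h4, nbSum] using this
    · rw [gamma, ← e]
      simp
  · refine le_iInf₂ fun g hg => EReal.coe_le_coe_iff.2 ?_
    have h3 : gamma G ≤ #D := Nat.sInf_le ⟨D, hD, rfl⟩
    exact (Nat.cast_le.2 h3).trans (h2.trans (weak G f g h0 h1 hg))

end Pool.Agent.Results.MP_24e13c_co.Chordal
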